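import Pool.Agent.W547.LF.Tate

/-!
# Tate classes on all powers of abelian varieties of CM type of dimension at most five

Let `A` be an abelian variety over a number field, of CM type and of dimension at most five; over a
finite extension of the base field `A` is isogenous to a product `X` of abelian varieties with
complex multiplication by CM fields `E i`, with CM types `Φ i` (the factors may be simple or not,
isogenous or not; `dim X ≤ 5` means that the rational homology `H_1(X, ℚ) = ∏ E i` has
dimension at most ten). Let `V = V_ℓ(A ^ n) = ℚ_ℓ ⊗ H_1(X ^ n, ℚ)` be the rational Tate module of the
power `A ^ n`, with the action `ρ` of the Galois group and the cyclotomic character `χ`, and let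
`γ` be the Frobenius element of one place above a prime number `p ≠ ℓ` that splits completely in the
fields `E i`. It acts by the multiplication by `π ∈ ∏ E i`, with absolute values given by the theorem
of Shimura and Taniyama.

Then, for every `n`, all Tate classes on `A ^ n` (the classes in `H^{2m}(A ^ n, ℚ_ℓ(m))` fixed by a
subgroup of finite index of the Galois group) are linear combinations, with coefficients in `ℚ_ℓ`, of
classes in the ring generated by the classes of divisors on `X ^ n` and by the pull-backs, along
homomorphisms `X ^ n → Y`, of the Weil classes of imaginary quadratic fields on abelian fourfolds and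
sixfolds `Y` of CM type and of split Weil type.

The Weil classes on abelian fourfolds of Weil type and on abelian sixfolds of split Weil type are
algebraic by theorems of Markman. With these theorems the Tate conjecture holds for all powers of all
abelian varieties of CM type of dimension at most five over number fields.
-/

namespace Pool.Agent.Results.MP_938ce2_ag.CMDimensionFive

open Module Pool.Agent.W547.KB Pool.Agent.W547.LD Pool.Agent.W530.NF Pool.Agent.W547.LF

/-- `X` is an arbitrary abelian variety of CM type of dimension at most five, `V` is the rational
Tate module of `X ^ n` with the action `ρ` of the Galois group `G`, `γ ∈ G` is one Frobenius element: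
all Tate classes `f` on `X ^ n` are generated. -/
theorem result (X : CMAV) (hX : finrank ℚ X.H1 ≤ 10) (n : ℕ) {K V G : Type} [Field K]
    [CharZero K] [AddCommGroup V] [Module K V] [Group G] (C : Comparison (powerX X n) K V)
    (ρ : Representation K G V) (χ : G →* K) (w : AbsoluteValue ℂ ℝ) (q : ℕ) (π : X.H1)
    (γ : G) (h : IsFrobeniusAt X n C ρ χ w q π γ) {m : ℕ}
    (f : V [⋀^Fin (2 * m)]→ₗ[K] K) (hf : IsTateClass ρ χ f) : IsGenerated C f :=
  tate_numberField X hX n C ρ χ w q π γ h f hf

end Pool.Agent.Results.MP_938ce2_ag.CMDimensionFive
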