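import Mathlib
import Pool.Agent.W516.FourDefs
import Pool.Agent.W516.ODefs
import Pool.Agent.W516.OProd
import Pool.Agent.W516.Clifford

/-!
# Tate classes on the powers of a variety with orthogonal cohomology

Let `Y` be a smooth projective variety over a number field `K` whose odd cohomology vanishes, for
example a surface with `b₁ = 0` or an even-dimensional complete intersection, `ℓ` a prime number.
Let `H` be the sum of the Galois representations `H^{2j}(Y, ℚ_ℓ)(j)`; by the Künneth formula
and Poincaré duality the Tate classes (of all codimensions) on the power `Y ^ n` are the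
multilinear forms in `n` variables on `H` that are fixed by an open subgroup of the Galois group.
Suppose that `H` is the direct sum of a representation `T` with an invariant nondegenerate symmetric
bilinear form and a representation `H₀` on which an open subgroup acts trivially (`T` is the
transcendental part, `H₀` the space of Tate classes of `Y`).  Suppose that

* `T` is a semisimple representation of the Galois group;
* for ONE place `v` of good reduction, not dividing `ℓ`, the characteristic polynomial `P` of the
  Frobenius element on `T` has no multiple roots, and complex roots `a`, `b`, `c`, `d` of `P` whose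
  product is a root of unity always fall into two pairs with product `1`.

Then all Tate classes on `Y ^ n` are linear combinations of products of Tate classes on `Y` and
`Y × Y`, if `n` is less than the rank of all nonzero bilinear forms on `T` with values in a finite
extension of `ℚ_ℓ` that are fixed by an open subgroup.  So the Tate conjecture for `Y × Y` implies
the Tate conjecture for `Y ^ n`.  If `T` is absolutely irreducible under all open subgroups, the
condition is `n < dim T`, and the Tate classes are generated by those on `Y` and the invariant form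
of `T`, a Künneth component of the diagonal.

The bound for `n` is best possible: the determinant of an absolutely irreducible component of `T` is
a Tate class if the image of the Galois group is in the special orthogonal group.

There are no conditions on the Hodge numbers and on the Galois group of `P`, and the roots of `P` may
have relations of length six or more.  The dimension of `T` may be odd.
-/

namespace Pool.Agent.Results.MP_938ce2_ag.EvenCohomologyPowers

open Pool.Agent.W516.FT Pool.Agent.W516.Orth

/-- Let `T` be a semisimple orthogonal representation and `H₀` a representation on which a subgroup of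
finite index acts trivially.  If one element `γ` has distinct eigenvalues on `T` without nontrivial
multiplicative relations of length four, the Tate tensors of degree `n` on `T × H₀` are linear
combinations of products of Tate linear forms and Tate bilinear forms, if `n` is less than the rank
of all nonzero Tate bilinear forms on `T`. -/
theorem result (ℓ : ℕ) [Fact ℓ.Prime]
    {T : Type} [AddCommGroup T] [Module ℚ_[ℓ] T] [FiniteDimensional ℚ_[ℓ] T]
    {H₀ : Type} [AddCommGroup H₀] [Module ℚ_[ℓ] H₀] [FiniteDimensional ℚ_[ℓ] H₀]
    {Γ : Type} [Group Γ] (ρ : Representation ℚ_[ℓ] Γ T) (τ : Representation ℚ_[ℓ] Γ H₀)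
    (hτ : ∃ Δ : Subgroup Γ, Δ.FiniteIndex ∧ ∀ s ∈ Δ, ∀ w, τ s w = w)
    (ω : T →ₗ[ℚ_[ℓ]] T →ₗ[ℚ_[ℓ]] ℚ_[ℓ]) (hsymm : ∀ u v, ω u v = ω v u)
    (hnondeg : ∀ u, (∀ v, ω v u = 0) → u = 0)
    (hω : ∀ s u v, ω (ρ s u) (ρ s v) = ω u v)
    (hss : ∀ U : Submodule ℚ_[ℓ] T, (∀ s, ∀ u ∈ U, ρ s u ∈ U) →
      ∃ U' : Submodule ℚ_[ℓ] T, (∀ s, ∀ u ∈ U', ρ s u ∈ U') ∧ IsCompl U U')
    (γ : Γ) (P : Polynomial ℚ) (hP : P.Separable)
    (hγ : (ρ γ).charpoly = P.map (algebraMap ℚ ℚ_[ℓ]))
    (hfour : OnlyTrivialRelationsOfLengthFour P 1)
    (n : ℕ) (hrank : TateBilinearFormsHaveRankGreaterThan ρ n)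
    (φ : MultilinearMap ℚ_[ℓ] (fun _ : Fin n => T × H₀) ℚ_[ℓ])
    (hφ : IsTateTensor (ρ.prod τ) φ) :
    φ ∈ Submodule.span ℚ_[ℓ]
      {ψ : MultilinearMap ℚ_[ℓ] (fun _ : Fin n => T × H₀) ℚ_[ℓ] |
        IsProductOfTateForms (ρ.prod τ) ψ} := by
  have hss' : ∀ Δ : Subgroup Γ, Δ.FiniteIndex →
      Pool.Agent.H204R3.GP.SemiUnder (ρ '' (Δ : Set Γ)) := by
    intro Δ hΔ U hU
    obtain ⟨U', h1, h2⟩ := Pool.Agent.W516.Cliff.compl_finiteIndex ρ (fun U hU => by
      obtain ⟨U', h1, h2⟩ := hss U (fun s u hu => hU s trivial u hu)
      exact ⟨U', fun s _ u hu => h1 s u hu, h2⟩) Δ U (fun s hs u hu => hU _ ⟨s, hs, rfl⟩ u hu)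
    refine ⟨U', ?_, h2⟩
    rintro _ ⟨s, hs, rfl⟩ u hu
    exact h1 s hs u hu
  refine tensor_mem ρ τ hτ (fun N hN φ hφ => ?_) φ hφ
  refine fix_of_four ρ ω hsymm hnondeg hω hss' γ hP hγ hfour ?_ φ hφ
  intro Ω _ _ _ B hB hB0
  exact hN.trans_lt (hrank Ω B hB hB0)

end Pool.Agent.Results.MP_938ce2_ag.EvenCohomologyPowers
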