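import Mathlib
import Pool.Agent.H204R3.GP.Defs
import Pool.Agent.W516.FourDefs
import Pool.Agent.W516.FourMain

/-!
# Relations of length four between Frobenius eigenvalues and the Tate conjecture

Let `A` be an abelian variety over a number field `K`, `ℓ` a prime number.  Suppose that `A` has
good reduction at ONE place `v`, not dividing `ℓ`, with residue field of `q` elements, such that

* the characteristic polynomial `P` of the Frobenius element at `v` has no multiple roots;
* for complex roots `a`, `b`, `c`, `d` of `P` with `a b c d = ζ q ^ 2`, `ζ` a root of unity, the four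
  roots fall into two pairs with product `q`.  (For the reduction of `A` at `v` this says that the
  Tate classes of codimension two on its powers are generated by divisor classes and that its
  endomorphism algebra over the algebraic closure is commutative.)

If `A` has no factor of type IV, all Tate classes on all powers of `A` are linear combinations of
wedge products of Tate classes of degree two, so they are algebraic by the theorem of Faltings: the
Tate conjecture holds for all powers of `A`.  In general this holds for the Tate classes of
codimension `m`, if `4 m` is less than the rank of all nonzero SYMMETRIC bilinear forms on `V_ℓ(A)`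
with values in a finite extension `Ω` of `ℚ_ℓ` on which an open subgroup of the Galois group acts
through the cyclotomic character.  (Such forms are `ω(c u, v)`, `ω` the Weil pairing of a
polarization and `c` an element of `End(A) ⊗ Ω` that is antisymmetric with respect to the Rosati
involution; there are none if `A` has no factor of type IV.  If `A` is simple with a center of degree
`2 r` of its endomorphism algebra, a CM field, the ranks are at least `2 dim(A) / r`.)

There are no conditions on the dimension of `A`, on the slopes and on the Galois group of `P`; and
the eigenvalues may have relations of length six or more.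

The proof.  Let `g` be the Lie algebra of the endomorphisms of `V` that kill all Tate classes.
The condition on `P` shows that (over a splitting field) the adjoint action of the diagonal torus of
the symplectic group is given by polynomials in the adjoint action of the Frobenius element.  So the
diagonal torus normalizes `g`; and its normalizer `n` is then, by semisimplicity, a product of
symplectic and general linear Lie algebras.  The ideal `g` of `n` contains diagonal elements given
by homomorphisms from the group generated by the eigenvalues to `ℚ`, so it contains all root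
vectors of `n`.
-/

namespace Pool.Agent.Results.MP_938ce2_ag.FourTerm

open Pool.Agent.H204R3.GP Pool.Agent.H204R3.SP Pool.Agent.W516.FT

/-- If one element `γ` of the Galois group has distinct eigenvalues without nontrivial multiplicative
relations of length four, all Tate classes of codimension `m` on all powers are generated in degree
two, if there are no nonzero symmetric Tate forms of rank at most `4 m`. -/
theorem result (ℓ : ℕ) [Fact ℓ.Prime]
    {V : Type} [AddCommGroup V] [Module ℚ_[ℓ] V] [FiniteDimensional ℚ_[ℓ] V]
    {Γ : Type} [Group Γ] (ρ : Representation ℚ_[ℓ] Γ V) (χ : Γ →* ℚ_[ℓ])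
    (ω : V →ₗ[ℚ_[ℓ]] V →ₗ[ℚ_[ℓ]] ℚ_[ℓ]) (halt : ∀ v, ω v v = 0)
    (hnondeg : ∀ u, (∀ v, ω v u = 0) → u = 0)
    (hω : ∀ s u v, ω (ρ s u) (ρ s v) = χ s * ω u v)
    (hss : FiniteIndexSemisimple ρ)
    (γ : Γ) (q : ℕ) (hχ : χ γ = q) (P : Polynomial ℚ) (hP : P.Separable)
    (hγ : (ρ γ).charpoly = P.map (algebraMap ℚ ℚ_[ℓ]))
    (hfour : OnlyTrivialRelationsOfLengthFour P q)
    (m : ℕ) (hsym : SymmetricTateFormsHaveRankGreaterThan ρ χ (4 * m)) :
    GeneratedInCodimension ρ χ m := by
  rintro n f ⟨Δ, hΔ, hf⟩
  have hss' : ∀ Δ : Subgroup Γ, Δ.FiniteIndex → SemiUnder (ρ '' (Δ : Set Γ)) := by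
    intro Δ hΔ U hU
    obtain ⟨U', h1, h2⟩ := hss Δ hΔ U (fun s hs u hu => hU _ ⟨s, hs, rfl⟩ u hu)
    refine ⟨U', ?_, h2⟩
    rintro _ ⟨s, hs, rfl⟩ u hu
    exact h1 s hs u hu
  have h1 := altG_of_tate_mem ρ χ (n := n) (m := m) (fun φ hφ => tate_of_four ρ χ ω halt hnondeg
    hω hss' γ hχ hP hγ hfour hsym φ hφ) f Δ hΔ hf
  refine Submodule.span_mono ?_ h1
  rintro g ⟨B, hB, hg⟩
  refine ⟨B, fun l => ?_, hg⟩
  obtain ⟨Δ', hΔ', h2⟩ := hB l
  refine ⟨Δ', hΔ', fun s hs v => ?_⟩
  rw [pow_one]
  exact h2 s hs v

end Pool.Agent.Results.MP_938ce2_ag.FourTerm
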