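import Pool.Agent.W544.FF.Final

/-!
# Tate classes on products of symmetric powers of surfaces

Let `k` be a number field with absolute Galois group `Γ`, let `S_0, ..., S_(r-1)` be smooth
projective surfaces over `k` with `b_1 = 0`, and let `T_i` be the transcendental part of
`H^2(S_i, ℚ_l(1))` (the orthogonal complement of the classes of divisors over the algebraic
closure), `T = ⊕ T_i`.  The structure `GR` consists of the representation `ρ` of `Γ` on `T`, the
intersection form `Q`, the Lie algebra `L` of the image of `ρ` (a form on `T` is invariant under an
open subgroup of `Γ` if and only if it is killed by `L`), an embedding `ι` of `ℚ_l` into the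
complex numbers (that is `ℂ_l`), and the Sen operator `x` at a place above `l`: it lies in `L ⊗ ℂ`
(theorem of Sen) and is `1`, `0`, `-1` on the pieces of the Hodge-Tate decomposition, which have
dimensions `p_i`, `q_i`, `p_i` on `T_i`, where `p_i` is the geometric genus (Faltings); `c` says to
which surface a basis vector of `T` belongs.

The conditions `GR.Big`: the endomorphisms of `T` commuting with an open subgroup of `Γ` are the
scalars on the `T_i` (so the `T_i` are absolutely irreducible, if semisimple, over all finite
extensions of `k`, and not isomorphic); the identity component of the Zariski closure of the image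
is reductive, in the form of the unitary trick (`GR.Red`: a maximal compact subgroup `K` which
contains the circle generated by the cocharacter `x` lies, in a suitable orthonormal basis `u`
of `T ⊗ ℂ`, in the real orthogonal group; hence `L ⊗ ℂ = Lie K ⊕ i Lie K` is closed under adjoints
and `x` is hermitian); `p_i` and `q_i` are coprime and
`2 p_i^2 (p_i^2 + 1) < (q_i - 2 p_i) (q_i + p_i)` or `p_i = 1`, `q_i ≠ 0, 2`.

The cohomology of `S_i` is spanned by algebraic classes (`Fin s`, `d` says to which surface such a
class belongs; they are defined over a finite extension of `k`) and `T_i`.  By Poincare duality and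
the Kuenneth formula a class on `S_(a 1) × ... × S_(a m)` is an `m`-linear form `t` on
`ℚ_l^s ⊕ T` with coefficients in `ℚ_l`.

The map `f` divides the factors `1, ..., m` into blocks of equal surfaces.  The classes on the
product of the symmetric powers `Sym^N(S_i)`, one for each block with `N` elements, are the classes
`t` which are symmetric under the permutations of the factors in each block (`hsym`).  The sizes
`N` of the blocks are arbitrary; if `f` is injective we have the product of the surfaces itself.

Let `D` be a set of surfaces and suppose that for all `i` not in `D` the part `T_i` occurs, in the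
Kuenneth components of `t`, in less than `rank T_i` of the symmetric powers.

We prove that `t` is a Tate class if and only if it is a `ℚ_l`-linear combination of products of
algebraic classes on some of the factors, of transcendental parts of diagonals on pairs of equal
factors, and of determinants `det T_i` on `rank T_i` factors, for some `i ∈ D`.

So (`D = ∅`) Tate's conjecture holds, in all degrees and over all finite extensions of `k`, for all
products of symmetric powers `Sym^(N_1)(S_(a 1)) × ... × Sym^(N_b)(S_(a b))` with less than
`rank T_i` factors belonging to `S_i`, for every `i`, and arbitrary `N_j`.  Without any bound on the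
number of factors (`D` the set of all surfaces), it holds for all products of the surfaces if and
only if the classes `det T_i` are algebraic.
-/

open Matrix Finset Module

namespace Pool.Agent.Results.MP_938ce2_ag.ProductsOfSurfaces

open Pool.Agent.W544.PG Pool.Agent.W544.FF

/-- Tate classes on products of symmetric powers of surfaces. -/
theorem result {l : ℕ} [Fact l.Prime] {Γ : Type} [Group Γ] [TopologicalSpace Γ] {n r s m k : ℕ}
    (T : GR ℚ_[l] Γ n) (c : Fin n → Fin r) (p q : Fin r → ℕ) (hT : T.Big c p q)
    (d : Fin s → Fin r) (a : Fin m → Fin r) (f : Fin m → Fin k)
    (hf : ∀ j j', f j = f j' → a j = a j') (D : Finset (Fin r))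
    (t : (Fin m → Fin s ⊕ Fin n) → ℚ_[l])
    (hta : ∀ J, t J ≠ 0 → ∀ j, Sum.elim d c (J j) = a j)
    (hsym : ∀ π : Equiv.Perm (Fin m), (∀ j, f (π j) = f j) →
      ∀ J, t (fun j => J (π j)) = t J)
    (htr : ∀ J, t J ≠ 0 → ∀ i, i ∉ D →
      (univ.filter fun y : Fin k => ∃ j b, f j = y ∧ J j = Sum.inr b ∧ c b = i).card <
        2 * p i + q i) : IsTate (T.ρS s) t ↔ t ∈ algE T.Q c d a D :=
  tateEF hT d a f D hf t hta hsym htr

end Pool.Agent.Results.MP_938ce2_ag.ProductsOfSurfaces
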